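import Pool.Agent.Y883.GJ.Stm

/-!
# Project GJ, job PARS: Parseval in residue classes
-/

set_option autoImplicit false

namespace Pool.Agent.Y872.GJ

open Finset
open Pool.Agent.H807R2.Dav (ee)
open Pool.Agent.Y883.GJ
open scoped ComplexConjugate

theorem conj_ee (x : ℝ) : conj (ee x) = ee (-x) := by
  rw [Pool.Agent.H807R2.Dav.ee_eq, Pool.Agent.H807R2.Dav.ee_eq, ← Complex.exp_conj]
  congr 1
  rw [map_mul, Complex.conj_ofReal, Complex.conj_I]
  push_cast
  ring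

theorem ee_ne_one {x : ℝ} (h0 : x ≠ 0) (h1 : |x| < 1) : ee x ≠ 1 := by
  intro h
  unfold Pool.Agent.H807R2.Dav.ee at h
  obtain ⟨k, hk⟩ := Complex.exp_eq_one_iff.1 h
  have h2 : (x : ℂ) = (k : ℂ) := by
    have hpi : (2 * (Real.pi : ℂ) * Complex.I) ≠ 0 := Complex.two_pi_I_ne_zero
    apply mul_left_cancel₀ hpi
    rw [hk]
    ring
  have h3 : x = (k : ℝ) := by exact_mod_cast h2
  rw [h3] at h0 h1
  have h4 : |k| < 1 := by exact_mod_cast h1
  have h5 : k = 0 := Int.abs_lt_one_iff.1 h4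
  apply h0
  rw [h5]
  simp

/-- orthogonality -/
theorem orth (M n m : ℕ) (hn : n < M) (hm : m < M) :
    ∑ t ∈ range M, ee ((n : ℝ) * ((t : ℝ) / (M : ℕ))) * conj (ee ((m : ℝ) * ((t : ℝ) / (M : ℕ)))) =
      if n = m then (M : ℂ) else 0 := by
  have hM : (0 : ℝ) < M := by exact_mod_cast (by omega : 0 < M)
  have h1 : ∀ t ∈ range M, ee ((n : ℝ) * ((t : ℝ) / (M : ℕ))) *
      conj (ee ((m : ℝ) * ((t : ℝ) / (M : ℕ)))) = ee (((n : ℝ) - m) / M) ^ t := by
    intro t _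
    rw [conj_ee, ← Pool.Agent.H807R2.Dav.ee_add, ← Pool.Agent.H807R2.Dav.ee_pow]
    congr 1
    ring
  rw [sum_congr rfl h1]
  by_cases h : n = m
  · rw [if_pos h, h, sub_self, zero_div, Pool.Agent.H807R2.Dav.ee_zero]
    simp
  · rw [if_neg h]
    have h2 : ee (((n : ℝ) - m) / M) ≠ 1 := by
      apply ee_ne_one
      · apply div_ne_zero _ hM.ne'
        rw [sub_ne_zero]
        exact_mod_cast h
      · rw [abs_div, abs_of_pos hM, div_lt_one hM, abs_lt]
        have e1 : (n : ℝ) < M := by exact_mod_cast hn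
        have e2 : (m : ℝ) < M := by exact_mod_cast hm
        have e3 : (0 : ℝ) ≤ n := Nat.cast_nonneg n
        have e4 : (0 : ℝ) ≤ m := Nat.cast_nonneg m
        constructor <;> linarith
    have h3 : ee (((n : ℝ) - m) / M) ^ M = 1 := by
      rw [← Pool.Agent.H807R2.Dav.ee_pow]
      have : (M : ℝ) * (((n : ℝ) - m) / M) = (((n : ℤ) - (m : ℤ) : ℤ) : ℝ) := by
        push_cast
        field_simp
      rw [this, Pool.Agent.H807R2.Dav.ee_int]
    have h4 := geom_sum_mul (ee (((n : ℝ) - m) / M)) M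
    rw [h3, sub_self] at h4
    exact (mul_eq_zero.1 h4).resolve_right (sub_ne_zero.2 h2)

/-- Parseval -/
theorem parseval (M : ℕ) (S : Finset ℕ) (hS : ∀ n ∈ S, n < M) (c : ℕ → ℂ) :
    ∑ t ∈ range M, ‖∑ n ∈ S, c n * ee ((n : ℝ) * ((t : ℝ) / (M : ℕ)))‖ ^ 2 =
      (M : ℝ) * ∑ n ∈ S, ‖c n‖ ^ 2 := by
  have h1 : ∀ z : ℂ, ((‖z‖ ^ 2 : ℝ) : ℂ) = z * conj z := by
    intro z
    rw [Complex.mul_conj, Complex.normSq_eq_norm_sq]
  have h2 : ((∑ t ∈ range M, ‖∑ n ∈ S, c n * ee ((n : ℝ) * ((t : ℝ) / (M : ℕ)))‖ ^ 2 : ℝ) : ℂ) =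
      (((M : ℝ) * ∑ n ∈ S, ‖c n‖ ^ 2 : ℝ) : ℂ) := by
    rw [Complex.ofReal_sum, Complex.ofReal_mul, Complex.ofReal_sum]
    have h3 : ∀ t ∈ range M,
        ((‖∑ n ∈ S, c n * ee ((n : ℝ) * ((t : ℝ) / (M : ℕ)))‖ ^ 2 : ℝ) : ℂ) =
        ∑ n ∈ S, ∑ m ∈ S, c n * conj (c m) * (ee ((n : ℝ) * ((t : ℝ) / (M : ℕ))) *
          conj (ee ((m : ℝ) * ((t : ℝ) / (M : ℕ))))) := by
      intro t _
      rw [h1, map_sum, sum_mul_sum]
      refine sum_congr rfl fun n _ => sum_congr rfl fun m _ => ?_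
      rw [map_mul]
      ring
    rw [sum_congr rfl h3, sum_comm, mul_sum]
    refine sum_congr rfl fun n hn => ?_
    rw [sum_comm]
    have h4 : ∀ m ∈ S, ∑ t ∈ range M, c n * conj (c m) * (ee ((n : ℝ) * ((t : ℝ) / (M : ℕ))) *
          conj (ee ((m : ℝ) * ((t : ℝ) / (M : ℕ))))) =
        if n = m then c n * conj (c m) * M else 0 := by
      intro m hm
      rw [← mul_sum, orth M n m (hS n hn) (hS m hm)]
      split_ifs
      · rfl
      · rw [mul_zero]
    rw [sum_congr rfl h4, sum_ite_eq, if_pos hn, h1]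
    push_cast
    ring
  exact_mod_cast h2

theorem cl_eq (q N : ℕ) (F : ℕ → ℂ) (β : ℝ) (l : ZMod q) :
    cl q N F β l = ∑ n ∈ Icc 1 N, if (n : ZMod q) = l then F n * ee (n * β) else 0 := by
  unfold cl
  rw [sum_filter]

theorem conv (q N : ℕ) [NeZero q] (G F : ℕ → ℂ) (β : ℝ) (a : ZMod q) :
    ∑ l : ZMod q, cl q N G β l * cl q N F β (a - l) =
      ∑ n ∈ (Icc 1 (2 * N)).filter (fun n : ℕ => (n : ZMod q) = a),
        (∑ b ∈ Icc 1 N, ∑ c ∈ Icc 1 N, if b + c = n then G b * F c else 0) * ee (n * β) := by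
  have h1 : ∑ l : ZMod q, cl q N G β l * cl q N F β (a - l) =
      ∑ b ∈ Icc 1 N, ∑ c ∈ Icc 1 N, if ((b + c : ℕ) : ZMod q) = a then
        G b * F c * ee (((b + c : ℕ) : ℝ) * β) else 0 := by
    have h2 : ∀ l : ZMod q, cl q N G β l * cl q N F β (a - l) =
        ∑ b ∈ Icc 1 N, ∑ c ∈ Icc 1 N, if (b : ZMod q) = l then
          (if (c : ZMod q) = a - l then G b * F c * ee (((b + c : ℕ) : ℝ) * β) else 0) else 0 := by
      intro l
      rw [cl_eq, cl_eq, sum_mul_sum]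
      refine sum_congr rfl fun b _ => sum_congr rfl fun c _ => ?_
      have h3 : ee (((b + c : ℕ) : ℝ) * β) = ee (b * β) * ee (c * β) := by
        rw [← Pool.Agent.H807R2.Dav.ee_add]
        congr 1
        push_cast
        ring
      rw [h3]
      by_cases e1 : (b : ZMod q) = l
      · by_cases e2 : (c : ZMod q) = a - l
        · rw [if_pos e1, if_pos e2, if_pos e1, if_pos e2]
          ring
        · simp only [if_neg e2, mul_zero, ite_self]
      · rw [if_neg e1, if_neg e1, zero_mul]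
    rw [sum_congr rfl fun l _ => h2 l, sum_comm]
    refine sum_congr rfl fun b _ => ?_
    rw [sum_comm]
    refine sum_congr rfl fun c _ => ?_
    rw [sum_ite_eq, if_pos (mem_univ _)]
    have h4 : ((c : ZMod q) = a - (b : ZMod q)) ↔ (((b + c : ℕ) : ZMod q) = a) := by
      push_cast
      rw [eq_sub_iff_add_eq, add_comm]
    by_cases e : (c : ZMod q) = a - (b : ZMod q)
    · rw [if_pos e, if_pos (h4.1 e)]
    · rw [if_neg e, if_neg (fun h => e (h4.2 h))]
  rw [h1]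
  have h5 : ∀ n ∈ (Icc 1 (2 * N)).filter (fun n : ℕ => (n : ZMod q) = a),
      (∑ b ∈ Icc 1 N, ∑ c ∈ Icc 1 N, if b + c = n then G b * F c else 0) * ee (n * β) =
      ∑ b ∈ Icc 1 N, ∑ c ∈ Icc 1 N, if b + c = n then
        G b * F c * ee (((b + c : ℕ) : ℝ) * β) else 0 := by
    intro n _
    rw [sum_mul]
    refine sum_congr rfl fun b _ => ?_
    rw [sum_mul]
    refine sum_congr rfl fun c _ => ?_
    by_cases e : b + c = n
    · rw [if_pos e, if_pos e, e]
    · rw [if_neg e, if_neg e, zero_mul]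
  symm
  refine (sum_congr rfl h5).trans ?_
  rw [sum_comm]
  refine sum_congr rfl fun b hb => ?_
  rw [sum_comm]
  refine sum_congr rfl fun c hc => ?_
  rw [sum_ite_eq]
  rw [mem_Icc] at hb hc
  by_cases e : ((b + c : ℕ) : ZMod q) = a
  · rw [if_pos e, if_pos]
    rw [mem_filter, mem_Icc]
    exact ⟨⟨by omega, by omega⟩, e⟩
  · rw [if_neg e, if_neg]
    rw [mem_filter]
    exact fun h => e h.2

theorem pars : ParsStm := by
  intro q N _ G F hN
  constructor
  · intro a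
    have h1 := parseval (2 * N + 1) ((Icc 1 (2 * N)).filter (fun n : ℕ => (n : ZMod q) = a))
      (by
        intro n hn
        rw [mem_filter, mem_Icc] at hn
        omega)
      (fun n => ∑ b ∈ Icc 1 N, ∑ c ∈ Icc 1 N, if b + c = n then G b * F c else 0)
    rw [← h1]
    refine sum_congr rfl fun t _ => ?_
    rw [conv]
  · have h1 : ∀ l : ZMod q,
        ∑ t ∈ range (2 * N + 1), ‖cl q N F ((t : ℝ) / (2 * N + 1 : ℕ)) l‖ ^ 2 =
        ((2 * N + 1 : ℕ) : ℝ) *
          ∑ n ∈ (Icc 1 N).filter (fun n : ℕ => (n : ZMod q) = l), ‖F n‖ ^ 2 := by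
      intro l
      exact parseval (2 * N + 1) ((Icc 1 N).filter (fun n : ℕ => (n : ZMod q) = l))
        (by
          intro n hn
          rw [mem_filter, mem_Icc] at hn
          omega) F
    rw [sum_comm, sum_congr rfl fun l _ => h1 l, ← mul_sum]
    congr 1
    exact sum_fiberwise_of_maps_to (fun n _ => mem_univ _) _

end Pool.Agent.Y872.GJ
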